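import Pool.Agent.H29.PS1

open Set

namespace Pool.Agent.Results.MP_6d826c_an.Counter

/-- uniform convexity -/
def UC (X : Type) [NormedAddCommGroup X] [NormedSpace ℝ X] : Prop :=
  ∀ ε : ℝ, 0 < ε → ε ≤ 2 → ∃ δ : ℝ, 0 < δ ∧ ∀ x y : X, ‖x‖ ≤ 1 → ‖y‖ ≤ 1 → ε ≤ ‖x - y‖ →
    ‖(1 / 2 : ℝ) • (x + y)‖ ≤ 1 - δ

/-- `M` embeds isometrically into `X` -/
def Emb (M X : Type) [MetricSpace M] [NormedAddCommGroup X] : Prop :=
  ∃ f : M → X, ∀ a b, ‖f a - f b‖ = dist a b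

/-- `M` embeds almost isometrically into `X` -/
def AlmostEmb (M X : Type) [MetricSpace M] [NormedAddCommGroup X] : Prop :=
  ∀ ε : ℝ, 0 < ε → ∃ f : M → X, ∀ a b, dist a b ≤ ‖f a - f b‖ ∧ ‖f a - f b‖ ≤ (1 + ε) * dist a b

open H29.PS

/-- There are an infinite-dimensional uniformly convex real Banach space and a finite metric space
that embeds almost isometrically but not isometrically into it. -/
theorem result :
    ∃ (X : Type) (_ : NormedAddCommGroup X) (_ : NormedSpace ℝ X) (_ : CompleteSpace X),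
      ¬ FiniteDimensional ℝ X ∧ UC X ∧
      ∃ (M : Type) (_ : MetricSpace M), Finite M ∧ AlmostEmb M X ∧ ¬ Emb M X := by
  obtain ⟨s, hs⟩ : ∃ s : ℕ → ℝ, ∀ n, s n = (1 + 1 / (n + 1 : ℝ))⁻¹ := ⟨_, fun _ => rfl⟩
  have s0 : ∀ n, 0 < s n := fun n => by rw [hs]; positivity
  have s1 : ∀ n, s n ^ 2 < 1 := fun n => pow_lt_one₀ (s0 n).le (by
    rw [hs]; exact inv_lt_one_of_one_lt₀ (lt_add_of_pos_right _ (by positivity))) two_ne_zero
  refine ⟨X s, inferInstance, inferInstance, inferInstance, fun h => ?_, fun ε ε0 _ =>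
    ⟨ε ^ 2 / 24, by positivity, fun x y hx hy h => ?_⟩,
    ({pt 1 0 0, pt 1 1 0, pt 1 1 1, pt 1 1 (-1)} : Set (P 1)), inferInstance, Set.toFinite _,
    fun ε ε0 => ?_, ?_⟩
  · refine Module.Finite.not_linearIndependent_of_infinite (R := ℝ)
      (fun n => (lp.single 2 n (pt _ 1 0) : X s)) (linearIndependent_iff'.2 fun t g e i hi => ?_)
    have := congrArg (fun f : X s => f i) e
    simp only [lp.coeFn_sum, Finset.sum_apply, lp.coeFn_smul, Pi.smul_apply] at this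
    rw [Finset.sum_eq_single i (fun j _ hj => by rw [lp.single_apply_ne _ _ _ hj.symm, smul_zero])
      (fun h => (h hi).elim), lp.single_apply_self] at this
    have h2 : g i * 1 - 0 * 0 = 0 := congrArg Complex.re this
    linarith
  · have h1 := Xuc (fun n => (s1 n).le) x y
    have h2 := pow_le_pow_left₀ ε0.le h 2
    have h3 := pow_le_one₀ (norm_nonneg _) hx (n := 2)
    have h4 := pow_le_one₀ (norm_nonneg _) hy (n := 2)
    rw [norm_smul, Real.norm_of_nonneg (by norm_num)]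
    nlinarith [sq_nonneg (‖x + y‖ - 2)]
  · obtain ⟨n, hn⟩ := exists_nat_one_div_lt ε0
    have e : ∀ a b : P 1, ‖(lp.single 2 n (pt _ (a.re / s n) (a.im / s n)) : X s) -
        lp.single 2 n (pt _ (b.re / s n) (b.im / s n))‖ ^ 2 =
        ((a - b).re ^ 2 + (a - b).im ^ 2) / s n ^ 2 + (|(a - b).re| + |(a - b).im|) ^ 2 :=
      fun a b => by
        rw [← lp.single_sub, lp.norm_single (by norm_num), nsq]
        show (a.re / s n - b.re / s n) ^ 2 + (a.im / s n - b.im / s n) ^ 2 + s n ^ 2 *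
          (|a.re / s n - b.re / s n| + |a.im / s n - b.im / s n|) ^ 2 = _
        rw [← sub_div, ← sub_div, abs_div, abs_div, abs_of_pos (s0 n), sub_re, sub_im]
        have := (s0 n).ne'
        field_simp
    have i1 : 1 ≤ (s n ^ 2)⁻¹ := (one_le_inv₀ (pow_pos (s0 n) 2)).2 (s1 n).le
    have i2 : (s n ^ 2)⁻¹ ≤ (1 + ε) ^ 2 := by
      rw [← inv_pow, hs, inv_inv]
      exact pow_le_pow_left₀ (by positivity) (by linarith) 2
    refine ⟨fun a => lp.single 2 n (pt _ (a.1.re / s n) (a.1.im / s n)), fun a b => ?_⟩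
    have p : 0 ≤ (a.1 - b.1).re ^ 2 + (a.1 - b.1).im ^ 2 := by positivity
    rw [Subtype.dist_eq, dist_eq_norm, ← sq_le_sq₀ (norm_nonneg _) (norm_nonneg _),
      ← sq_le_sq₀ (norm_nonneg _) (by positivity), e, mul_pow, nsq, div_eq_mul_inv]
    constructor <;> nlinarith [mul_le_mul_of_nonneg_left i1 p, mul_le_mul_of_nonneg_left i2 p,
      mul_le_mul_of_nonneg_left (i1.trans i2) (sq_nonneg (|(a.1 - b.1).re| + |(a.1 - b.1).im|))]
  · rintro ⟨f, hf⟩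
    have d : ∀ a b c d ha hb, ‖f ⟨pt 1 a b, ha⟩ - f ⟨pt 1 c d, hb⟩‖ ^ 2 =
        (a - c) ^ 2 + (b - d) ^ 2 + 1 ^ 2 * (|a - c| + |b - d|) ^ 2 := fun a b c d ha hb => by
      rw [hf, Subtype.dist_eq, dist_eq_norm, nsq]; rfl
    obtain ⟨O, hO⟩ : ∃ O, O = f ⟨pt 1 0 0, by simp⟩ := ⟨_, rfl⟩
    obtain ⟨R, hR⟩ : ∃ O, O = f ⟨pt 1 1 0, by simp⟩ := ⟨_, rfl⟩
    obtain ⟨A, hA⟩ : ∃ O, O = f ⟨pt 1 1 1, by simp⟩ := ⟨_, rfl⟩
    obtain ⟨B, hB⟩ : ∃ O, O = f ⟨pt 1 1 (-1), by simp⟩ := ⟨_, rfl⟩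
    have d1 : ‖R - O‖ ^ 2 = 2 := by rw [hR, hO, d]; norm_num
    have d2 : ‖A - R‖ ^ 2 = 2 := by rw [hR, hA, d]; norm_num
    have d3 : ‖R - B‖ ^ 2 = 2 := by rw [hR, hB, d]; norm_num
    have d4 : ‖A - B‖ ^ 2 = 8 := by rw [hA, hB, d]; norm_num
    have d5 : ‖A - O‖ ^ 2 = 6 := by rw [hA, hO, d]; norm_num
    have d6 : ‖B - O‖ ^ 2 = 6 := by rw [hB, hO, d]; norm_num
    have e := Xsc (A - R) (R - B) (by rw [sub_add_sub_cancel]; linarith)
    have := Xstrict s1 (R - O) (A - R) (by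
      rw [sub_add_sub_cancel', d5, d2, e, sub_sub_sub_cancel_left, d6]; linarith)
    rw [this] at d1
    simp at d1

end Pool.Agent.Results.MP_6d826c_an.Counter
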